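import Pool.Agent.MP_8c2300_lc.h70.Final

/-!
An oracle world where `NEXP` has polynomial advice algorithms, yet `NE ∩ coNE` is not in `EXP`.
-/

open Pool.Agent.MP_8c2300_lc

namespace Pool.Agent.Results.MP_8c2300_lc.AdviceOracle

/-- There is an oracle `A` such that, relative to `A`, `NEXP ⊆ P/poly`, while some language in
`NE ∩ coNE` lies outside `EXP` and even outside deterministic time polynomial in
`2 ^ 2 ^ (n / 5)`. -/
theorem result : ∃ A : Str → Bool,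
    (∀ k : ℕ, NT A (fun n => 2 ^ n ^ k) (fun _ => ⊤) ⊆ PPoly A) ∧
    ∃ L : Set Str, L ∈ NT A (fun n => 2 ^ n) (fun _ => ⊤) ∧
      (L)ᶜ ∈ NT A (fun n => 2 ^ n) (fun _ => ⊤) ∧ (∀ k : ℕ, L ∉ DT A (fun n => 2 ^ n ^ k)) ∧
      L ∉ DT A (fun n => 2 ^ 2 ^ (n / 5)) :=
  H70.main

end Pool.Agent.Results.MP_8c2300_lc.AdviceOracle
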