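import Pool.Agent.MP_8c2300_lc.Main

/-!
An oracle world where all promise versions of `NE` collapse to `E`, while `NE` with slowly growing
ambiguity does not, and upward separation fails for `UP`.
-/

open Filter Pool.Agent.MP_8c2300_lc

namespace Pool.Agent.Results.MP_8c2300_lc.FewPathsOracle

/-- For every `d` tending to infinity there is an oracle `A` such that, relative to `A`:
`UE = E`; disjoint `NE` pairs and disjoint `coNE` pairs are separable in `E`; some language of `NE`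
with at most `d n` witnesses is outside `E`; and some set of census at most `d` lies in
`UP ∩ coUP` and outside `P`. -/
theorem result (d : ℕ → ℕ) (hd : Tendsto d atTop atTop) : ∃ A : Str → Bool,
    NT A (2 ^ ·) (fun _ => 1) = DT A (2 ^ ·) ∧
    (∀ L₁ ∈ NT A (2 ^ ·) (fun _ => ⊤), ∀ L₂ ∈ NT A (2 ^ ·) (fun _ => ⊤), Disjoint L₁ L₂ →
      ∃ K ∈ DT A (2 ^ ·), L₁ ⊆ K ∧ Disjoint K L₂) ∧
    (∀ L₁ L₂ : Set Str, (L₁)ᶜ ∈ NT A (2 ^ ·) (fun _ => ⊤) → (L₂)ᶜ ∈ NT A (2 ^ ·) (fun _ => ⊤) →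
      Disjoint L₁ L₂ → ∃ K ∈ DT A (2 ^ ·), L₁ ⊆ K ∧ Disjoint K L₂) ∧
    (∃ L ∈ NT A (2 ^ ·) (fun n => d n), L ∉ DT A (2 ^ ·)) ∧
    ∃ S : Set Str, S ∈ NT A id (fun _ => 1) ∧ (S)ᶜ ∈ NT A id (fun _ => 1) ∧ S ∉ DT A id ∧
      ∀ n, {x ∈ S | x.length ≤ n}.encard ≤ d n :=
  main d hd

end Pool.Agent.Results.MP_8c2300_lc.FewPathsOracle
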