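import Mathlib
import Pool.Agent.MP_8c2300_lc.pp.TmSm
import Pool.Agent.MP_8c2300_lc.pp.SmTm
import Pool.Agent.MP_8c2300_lc.pp.Rules
import Pool.Agent.MP_8c2300_lc.pp.UProg
import Pool.Agent.MP_8c2300_lc.pp.Vs
import Pool.Agent.MP_8c2300_lc.h39.Main

namespace Pool.Agent.Results.MP_8c2300_lc.LogLogGap

open Pool.Agent.MP_8c2300_lc.PP

/-- Some language accepted by a nondeterministic multi-tape Turing machine in linear time is
accepted by no deterministic multi-tape Turing machine in time `n (log log n) ^ o(1)`. -/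
theorem result : ∃ L : Set (List Bool),
    (∃ (M : TM) (c : ℕ), M.Bounded (fun n => c * n + c) ∧ ∀ x, M.Accepts x ↔ x ∈ L) ∧
    ∀ (M : TM) (t : ℕ → ℕ), M.Det → M.Bounded t → (∀ x, M.Accepts x ↔ x ∈ L) →
      ∃ δ : ℝ, 0 < δ ∧ ¬ (fun n : ℕ => (t n : ℝ)) =O[Filter.atTop]
        fun n : ℕ => (n : ℝ) * Real.log (Real.log n) ^ δ :=
  Pool.Agent.MP_8c2300_lc.H39.main_of (tmsm compile) smtm (clock compile) (nprog compile) rules
    (uprog compile) (vimpl compile) vc vs

end Pool.Agent.Results.MP_8c2300_lc.LogLogGap
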