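import Mathlib
import Pool.Agent.MP_8c2300_lc.h28.Main

set_option autoImplicit false

namespace Pool.Agent.Results.MP_8c2300_lc.VariableHierarchy

open Pool.Agent.MP_8c2300_lc.h28

/-- The variable hierarchy of first-order spectra (relational vocabularies) is strict at every
level. -/
theorem result (k : ℕ) : Spec k ⊂ Spec (k + 1) := hierarchy k

end Pool.Agent.Results.MP_8c2300_lc.VariableHierarchy
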